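import Pool.Agent.H429R4.GC.Defs

set_option autoImplicit false

/-!
# Relabelings that preserve blocks of vertices
-/

namespace Pool.Agent.H167R3.AG

open Pool.Agent.H429R4.GC (adj)

variable {W : Type} {k b : ℕ}

/-- The permutations of `W` that map each of the blocks `{φ (i, j) | j}` to itself and fix all other
points. -/
def blockPerms (φ : Fin k × Fin b ↪ W) : Submonoid (Equiv.Perm W) where
  carrier := {σ | (∀ i j, ∃ j', σ (φ (i, j)) = φ (i, j')) ∧ ∀ v, v ∉ Set.range φ → σ v = v}
  one_mem' := ⟨fun _ j => ⟨j, rfl⟩, fun _ _ => rfl⟩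
  mul_mem' := by
    rintro σ τ ⟨h1, h2⟩ ⟨h3, h4⟩
    refine ⟨fun i j => ?_, fun v hv => ?_⟩
    · obtain ⟨j', hj'⟩ := h3 i j
      obtain ⟨j'', hj''⟩ := h1 i j'
      exact ⟨j'', by rw [Equiv.Perm.mul_apply, hj', hj'']⟩
    · rw [Equiv.Perm.mul_apply, h4 v hv, h2 v hv]

/-- The relabelings of graphs by permutations that preserve the blocks. -/
def blockRelabelings (φ : Fin k × Fin b ↪ W) : Set (SimpleGraph W → SimpleGraph W) :=
  Set.range fun (σ : blockPerms φ) (G : SimpleGraph W) => G.comap σ.1

/-- The relabelings of the first graph of a pair by permutations that preserve the blocks. -/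
def firstBlockRelabelings (φ : Fin k × Fin b ↪ W) :
    Set (SimpleGraph W × SimpleGraph W → SimpleGraph W × SimpleGraph W) :=
  Set.range fun (σ : blockPerms φ) (x : SimpleGraph W × SimpleGraph W) => (x.1.comap σ.1, x.2)

end Pool.Agent.H167R3.AG
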