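import Pool.Agent.H167R3.AG.Local
import Pool.Agent.H167R3.AG.BlockDefs

set_option autoImplicit false
set_option linter.unusedSectionVars false

/-!
# Wild gates in circuits for cliques and for graph isomorphism, with respect to block permutations
-/

namespace Pool.Agent.H167R3.AG

open Matrix Finset
open Pool.Agent.H429R4.Sem (Circuit card_range_le_of_factor card_range_le card_range_const_le
  card_range_prod_le)
open Pool.Agent.H429R4.GC

variable {W : Type} {k b : ℕ}

theorem card_orbit_le [Finite W] (φ : Fin k × Fin b ↪ W) (hb : 0 < b) (p : W) :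
    Nat.card (Set.range fun σ : blockPerms φ => σ.1 p) ≤ b := by
  classical
  by_cases hp : p ∈ Set.range φ
  · obtain ⟨⟨i, j⟩, rfl⟩ := hp
    have h1 : ∀ x : Set.range fun σ : blockPerms φ => σ.1 (φ (i, j)), ∃ j', x.1 = φ (i, j') := by
      rintro ⟨_, σ, rfl⟩
      exact σ.2.1 i j
    choose f hf using h1
    have h2 : Function.Injective f := by
      intro x x' h
      refine Subtype.ext ?_
      rw [hf x, hf x', h]
    have h3 := Nat.card_le_card_of_injective f h2
    rwa [Nat.card_eq_fintype_card (α := Fin b), Fintype.card_fin] at h3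
  · have h1 : (fun σ : blockPerms φ => σ.1 p) = fun _ => p := by
      funext σ
      exact σ.2.2 p hp
    rw [h1]
    exact (card_range_const_le (S := blockPerms φ) p).trans hb

theorem card_block_adj_le [Finite W] (φ : Fin k × Fin b ↪ W) (hb : 0 < b) (c : W × W) :
    Nat.card (Set.range fun (σ : blockPerms φ) (G : SimpleGraph W) => adj (G.comap σ.1) c) ≤
      b ^ 2 := by
  classical
  obtain ⟨p, q⟩ := c
  refine (card_range_le_of_factor (S := blockPerms φ) _ (fun σ => (σ.1 p, σ.1 q)) ?_).trans ?_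
  · intro σ σ' h
    rw [Prod.mk.injEq] at h
    funext G
    have h1 : ∀ σ : blockPerms φ, adj (G.comap σ.1) (p, q) = adj G (σ.1 p, σ.1 q) := by
      intro σ
      unfold adj
      rw [decide_eq_decide]
      rfl
    rw [h1, h1, h.1, h.2]
  · refine (card_range_prod_le _ _).trans ?_
    rw [sq]
    exact Nat.mul_le_mul (card_orbit_le φ hb p) (card_orbit_le φ hb q)

theorem card_block_adjPair_le [Finite W] (φ : Fin k × Fin b ↪ W) (hb : 0 < b)
    (c : (W × W) ⊕ (W × W)) :
    Nat.card (Set.range fun (σ : blockPerms φ) (x : SimpleGraph W × SimpleGraph W) =>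
      adjPair (x.1.comap σ.1, x.2) c) ≤ b ^ 2 := by
  classical
  rcases c with c | c
  · refine le_trans ?_ (card_block_adj_le φ hb c)
    refine card_range_le_of_factor (S := blockPerms φ) _ _ fun σ σ' h => ?_
    funext x
    exact congrFun h x.1
  · exact (card_range_const_le (S := blockPerms φ)
      (fun x : SimpleGraph W × SimpleGraph W => adj x.2 c)).trans (Nat.one_le_pow _ _ hb)

theorem comap_clique {G : SimpleGraph W} {k : ℕ} (σ : Equiv.Perm W) (h : ¬ G.CliqueFree k) :
    ¬ (G.comap σ).CliqueFree k := fun h' =>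
  h (h'.comap (SimpleGraph.Iso.comap σ G).symm.isContained)

theorem comap_free {G : SimpleGraph W} {k : ℕ} (σ : Equiv.Perm W) (h : G.CliqueFree k) :
    (G.comap σ).CliqueFree k := h.comap (SimpleGraph.Iso.comap σ G).isContained

section Rich

variable {r : ℕ} (φ : Fin k × Fin b ↪ W) (e : (Fin r × Fin 3 → ZMod 2) ↪ Fin b)

/-- The smaller blocks inside the blocks. -/
def inner : Vert k r ↪ W := (Function.Embedding.prodMap (Function.Embedding.refl _) e).trans φ

theorem inner_apply (v : Vert k r) : inner φ e v = φ (v.1, e v.2) := rfl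

theorem rich_inner : Rich (inner φ e) (blockPerms φ) := by
  intro π hπ
  refine ⟨fun i j => ?_, fun v hv => ?_⟩
  · by_cases h : φ (i, j) ∈ Set.range (inner φ e)
    · obtain ⟨v, hv⟩ := h
      have h1 : v.1 = i := by
        rw [inner_apply] at hv
        exact congrArg Prod.fst (φ.injective hv)
      refine ⟨e (π v).2, ?_⟩
      rw [← hv, ext_apply, inner_apply, hπ, h1]
    · exact ⟨j, ext_apply_of_notMem _ _ h⟩
  · refine ext_apply_of_notMem _ _ ?_
    rintro ⟨v', rfl⟩
    exact hv ⟨_, rfl⟩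

end Rich

/-- Circuits for cliques have many wirings up to block permutations. -/
theorem clique_block (R : ℕ) : ∃ K : ℕ, 2 ≤ K ∧ ∀ (W : Type) [Finite W] (k b : ℕ) (φ : Fin k × Fin b ↪ W),
    K ≤ k → K ≤ b → ∀ (D L : Type) (C : Circuit (W × W) D L) (acc : Set D),
    (∀ G : SimpleGraph W, ¬ G.CliqueFree k → C.output (adj G) ∈ acc) →
    (∀ H : SimpleGraph W, (∀ q, k ≤ R * q → H.CliqueFree q) → C.output (adj H) ∉ acc) →
    b ^ k ≤ numWirings adj C (blockRelabelings φ) ^ K := by
  classical
  obtain ⟨K, hK2, hK⟩ := exists_params R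
  refine ⟨K, hK2, fun W _ k b φ hk hb D L C acc hyes hno => ?_⟩
  obtain ⟨r, n, t, q, q₁, e, y, hy, ht, hq₁, hfar, hq₂, hs⟩ := hK k b hk hb
  obtain ⟨β, hβ⟩ := exists_far_blocks y hfar
  by_contra hcon
  rw [not_le] at hcon
  obtain ⟨u₀, hu⟩ := exists_shift_local (inner φ e) (blockPerms φ) isRight_comap adj C hy ht
    (gr (inner φ e) y) (fun u b => gr_comap _ y u b) (fun β b τ => gr_local _ y β b τ)
    (fun w hw => hs _ _ (pow_supp_le' (inner φ e) (blockPerms φ) isRight_comap (rich_inner φ e)
      adj C w hw) hcon) 0 β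
  have h1 := hu 0
  have h2 : C.output (adj ((gr (inner φ e) y 0).comap
      (ext (inner φ e) (tr (push y (0 + u₀)))))) ∈ acc :=
    hyes _ (comap_clique _ (not_cliqueFree_zero _ y))
  rw [h1] at h2
  refine hno _ (fun q' hq' => comap_free _ ?_) h2
  exact (cliqueFree_of_far _ y β hq₁ hβ).mono (hq₂ q' hq')

/-- Circuits for graph isomorphism have many wirings up to block permutations of the first
graph. -/
theorem iso_block : ∃ K : ℕ, 2 ≤ K ∧ ∀ (W : Type) [Finite W] (k b : ℕ) (φ : Fin k × Fin b ↪ W),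
    K ≤ k → K ≤ b → ∀ (D L : Type) (C : Circuit ((W × W) ⊕ (W × W)) D L) (acc : Set D),
    (∀ G H : SimpleGraph W, C.output (adjPair (G, H)) ∈ acc ↔ Nonempty (G ≃g H)) →
    b ^ k ≤ numWirings adjPair C (firstBlockRelabelings φ) ^ K := by
  classical
  obtain ⟨K, hK2, hK⟩ := exists_params 1
  refine ⟨K, hK2, fun W _ k b φ hk hb D L C acc hiso => ?_⟩
  obtain ⟨r, n, t, q, q₁, e, y, hy, ht, hq₁, hfar, hq₂, hs⟩ := hK k b hk hb
  obtain ⟨β, hβ⟩ := exists_far_blocks y hfar
  by_contra hcon
  rw [not_le] at hcon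
  set F := gr (inner φ e) y 0 with hF
  obtain ⟨u₀, hu⟩ := exists_shift_local (inner φ e) (blockPerms φ) isRight_pair adjPair C hy ht
    (fun b => (gr (inner φ e) y b, F)) (fun u b => Prod.ext (gr_comap _ y u b) rfl)
    (fun β b τ => pair_local _ y F β b τ)
    (fun w hw => hs _ _ (pow_supp_le' (inner φ e) (blockPerms φ) isRight_pair (rich_inner φ e)
      adjPair C w hw) hcon) 0 β
  have h1 := hu 0
  have h2 : C.output (adjPair ((gr (inner φ e) y 0).comap
      (ext (inner φ e) (tr (push y (0 + u₀)))), F)) ∈ acc :=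
    (hiso _ _).2 ⟨SimpleGraph.Iso.comap _ _⟩
  rw [h1, hiso] at h2
  obtain ⟨f⟩ := h2
  have h3 : (gr (inner φ e) y β).CliqueFree k :=
    (cliqueFree_of_far _ y β hq₁ hβ).mono (hq₂ k (by omega))
  have h4 := comap_free (ext (inner φ e) (tr (push y 0))) h3
  exact not_cliqueFree_zero (inner φ e) y (h4.comap f.symm.isContained)

end Pool.Agent.H167R3.AG
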