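import Pool.Agent.H167R3.AG.BlockApps

set_option autoImplicit false
set_option linter.unusedSectionVars false

/-!
# Wild gates in circuits for cliques and for graph isomorphism: the bounds
-/

namespace Pool.Agent.H167R3.AG

open Matrix Finset
open Pool.Agent.H429R4.Sem (Circuit)
open Pool.Agent.H429R4.GC

/-- **Wild gates in circuits for cliques.** -/
theorem clique_wild (R : ℕ) : ∃ K : ℕ, ∀ (W : Type) [Finite W] (k b : ℕ)
    (φ : Fin k × Fin b ↪ W), K ≤ k → K ≤ b → ∀ (D L : Type) (C : Circuit (W × W) D L) (acc : Set D),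
    (∀ G : SimpleGraph W, ¬ G.CliqueFree k → C.output (adj G) ∈ acc) →
    (∀ H : SimpleGraph W, (∀ q, k ≤ R * q → H.CliqueFree q) → C.output (adj H) ∉ acc) →
    b ^ k ≤ numWirings adj C (blockRelabelings φ) ^ K ∧
    ∀ m w : ℕ, 0 < m → (∀ g, Multiset.card (C.wires g) ≤ w) →
      b ^ k ≤ (C.size * (b ^ 2 * m ^ w) ^ (numWild adj C (blockRelabelings φ) m + 1)) ^ K := by
  classical
  obtain ⟨K, hK2, hK⟩ := clique_block R
  refine ⟨K, fun W _ k b φ hk hb D L C acc hyes hno => ?_⟩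
  have h1 := hK W k b φ hk hb D L C acc hyes hno
  have hb0 : 0 < b := by omega
  refine ⟨h1, fun m w hm hw => h1.trans (Nat.pow_le_pow_left ?_ _)⟩
  exact numWirings_le adj (fun (σ : blockPerms φ) (G : SimpleGraph W) => G.comap σ.1) C
    (Nat.one_le_pow _ _ hb0) (card_block_adj_le φ hb0) hm hw

/-- **Wild gates in circuits for graph isomorphism.** -/
theorem iso_wild : ∃ K : ℕ, ∀ (W : Type) [Finite W] (k b : ℕ) (φ : Fin k × Fin b ↪ W),
    K ≤ k → K ≤ b → ∀ (D L : Type) (C : Circuit ((W × W) ⊕ (W × W)) D L) (acc : Set D),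
    (∀ G H : SimpleGraph W, C.output (adjPair (G, H)) ∈ acc ↔ Nonempty (G ≃g H)) →
    b ^ k ≤ numWirings adjPair C (firstBlockRelabelings φ) ^ K ∧
    ∀ m w : ℕ, 0 < m → (∀ g, Multiset.card (C.wires g) ≤ w) →
      b ^ k ≤ (C.size * (b ^ 2 * m ^ w) ^
        (numWild adjPair C (firstBlockRelabelings φ) m + 1)) ^ K := by
  classical
  obtain ⟨K, hK2, hK⟩ := iso_block
  refine ⟨K, fun W _ k b φ hk hb D L C acc hiso => ?_⟩
  have h1 := hK W k b φ hk hb D L C acc hiso
  have hb0 : 0 < b := by omega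
  refine ⟨h1, fun m w hm hw => h1.trans (Nat.pow_le_pow_left ?_ _)⟩
  exact numWirings_le adjPair (fun (σ : blockPerms φ) (x : SimpleGraph W × SimpleGraph W) =>
      (x.1.comap σ.1, x.2)) C
    (Nat.one_le_pow _ _ hb0) (card_block_adjPair_le φ hb0) hm hw

end Pool.Agent.H167R3.AG
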