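import Pool.Agent.H429R4.GC.Iso
import Pool.Agent.H167R3.AG.Gen

set_option autoImplicit false
set_option linter.unusedSectionVars false

/-!
# Circuits with few wirings up to permutations that preserve blocks
-/

namespace Pool.Agent.H167R3.AG

open Matrix Finset
open Pool.Agent.H429R4.Sem (Circuit)
open Pool.Agent.H429R4.GC

variable {X B D L W : Type} {k r n : ℕ}

/-- Two vectors with the same support are related by a symmetry that preserves the blocks. -/
theorem exists_symm_block (w w' : Pl k r → ZMod 2) (h : supp w' = supp w) :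
    ∃ (lam : Equiv.Perm (Vert k r)) (Lf : (Pl k r → ZMod 2) → (Pl k r → ZMod 2)),
      (∀ v, (lam v).1 = v.1) ∧ lam * lam = 1 ∧ (∀ z, tr z * lam = lam * tr (Lf z)) ∧
      (∀ z, Lf (Lf z) = z) ∧ ∀ z, w' ⬝ᵥ Lf z = w ⬝ᵥ z := by
  have hb : ∀ i, (blk w i ≠ 0 ↔ blk w' i ≠ 0) := by
    intro i
    rw [← mem_supp', ← mem_supp', h]
  choose s hs1 hs2 using fun i => exists_common (blk w i) (blk w' i) (hb i)
  let c : Fin k → (Fin r × Fin 3 → ZMod 2) := fun i => blk w i + blk w' i
  let m : Fin k → (Fin r × Fin 3 → ZMod 2) → (Fin r × Fin 3 → ZMod 2) :=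
    fun i v => v + (c i ⬝ᵥ v) • s i
  have hmadd : ∀ i v v', m i (v + v') = m i v + m i v' := by
    intro i v v'
    simp only [m, dotProduct_add, add_smul]
    abel
  have hminv : ∀ i v, m i (m i v) = v := by
    intro i v
    have h1 : c i ⬝ᵥ (m i v) = c i ⬝ᵥ v := by
      simp only [m]
      rw [dotProduct_add, dotProduct_smul]
      have : c i ⬝ᵥ s i = 0 := hs1 i
      rw [this, smul_zero, add_zero]
    change m i v + (c i ⬝ᵥ m i v) • s i = v
    rw [h1]
    change v + (c i ⬝ᵥ v) • s i + (c i ⬝ᵥ v) • s i = v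
    rw [add_assoc, add_self', add_zero]
  let lam : Equiv.Perm (Vert k r) :=
    { toFun := fun v => (v.1, m v.1 v.2)
      invFun := fun v => (v.1, m v.1 v.2)
      left_inv := fun v => by simp only [hminv]
      right_inv := fun v => by simp only [hminv] }
  let Lf : (Pl k r → ZMod 2) → (Pl k r → ZMod 2) := fun z p => m p.1.1 (blk z p.1.1) (p.1.2, p.2)
  have hblk : ∀ z i, blk (Lf z) i = m i (blk z i) := fun z i => rfl
  refine ⟨lam, Lf, fun v => rfl, ?_, fun z => ?_, fun z => ?_, fun z => ?_⟩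
  · ext v : 1
    exact Prod.ext rfl (hminv v.1 v.2)
  · ext v : 1
    refine Prod.ext rfl ?_
    change m v.1 v.2 + blk z v.1 = m v.1 (v.2 + blk (Lf z) v.1)
    rw [hblk, hmadd, hminv]
  · funext p
    change m p.1.1 (blk (Lf z) p.1.1) (p.1.2, p.2) = z p
    rw [hblk, hminv]
    rfl
  · rw [dot_blocks, dot_blocks]
    refine sum_congr rfl fun i _ => ?_
    rw [hblk]
    exact hs2 i (blk z i)

section Action

variable {act : Equiv.Perm W → X → X} (φ : Vert k r ↪ W) (Γ : Submonoid (Equiv.Perm W))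

/-- The monoid contains the block-preserving permutations. -/
def Rich : Prop := ∀ π : Equiv.Perm (Vert k r), (∀ v, (π v).1 = v.1) → ext φ π ∈ Γ

theorem visible_closed' (hact : IsRight act) (hΓ : Rich φ Γ)
    (enc : X → B → Bool) (C : Circuit B D L)
    (w w' : Pl k r → ZMod 2) (h : supp w' = supp w)
    (hw : w ∈ visible (isAction_pre (D := D) (L := L) φ hact)
      (wirings enc C (Set.range fun σ : Γ => act σ.1))) :
    w' ∈ visible (isAction_pre (D := D) (L := L) φ hact)
      (wirings enc C (Set.range fun σ : Γ => act σ.1)) := by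
  rw [mem_visible] at hw ⊢
  obtain ⟨ξ, ⟨g, f, ⟨σ, rfl⟩, rfl⟩, hst⟩ := hw
  obtain ⟨lam, Lf, h0, h1, h2, h3, h4⟩ := exists_symm_block w w' h
  refine ⟨pre (act (ext φ lam)) (view enc C g (act σ.1)),
    ⟨g, act σ.1 ∘ act (ext φ lam), ?_, ?_⟩, ?_⟩
  · rw [act_comp hact]
    exact ⟨⟨ext φ lam * σ.1, Γ.mul_mem (hΓ lam h0) σ.2⟩, rfl⟩
  · rw [pre_view]
  · intro z hz
    rw [mem_stab, pre_pre, act_comp hact, ← map_mul, h2, map_mul, ← act_comp hact, ← pre_pre] at hz
    have h5 := congrArg (pre (act (ext φ lam))) hz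
    rw [pre_pre, pre_pre (act (ext φ lam)), act_comp hact, ← map_mul, h1, map_one,
      act_one hact, pre_id, pre_id] at h5
    have h6 := hst (Lf z) h5
    rw [← h4, h3] at h6
    exact h6

theorem wirings_closed' (hact : IsRight act) (hΓ : Rich φ Γ) (enc : X → B → Bool)
    (C : Circuit B D L) :
    ∀ ξ ∈ wirings enc C (Set.range fun σ : Γ => act σ.1), ∀ z : Pl k r → ZMod 2,
      pre (act (ext φ (tr z))) ξ ∈ wirings enc C (Set.range fun σ : Γ => act σ.1) := by
  rintro ξ ⟨g, f, ⟨σ, rfl⟩, rfl⟩ z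
  refine ⟨g, act σ.1 ∘ act (ext φ (tr z)), ?_, ?_⟩
  · rw [act_comp hact]
    exact ⟨⟨ext φ (tr z) * σ.1, Γ.mul_mem (hΓ (tr z) fun v => rfl) σ.2⟩, rfl⟩
  · rw [pre_view]

theorem wirings_finite' [Finite W] (enc : X → B → Bool) (C : Circuit B D L) :
    (wirings enc C (Set.range fun σ : Γ => act σ.1)).Finite := by
  have := C.finite
  have h1 : wirings enc C (Set.range fun σ : Γ => act σ.1) =
      Set.range fun p : C.Gate × Γ => view enc C p.1 (act p.2.1) := by
    ext ξ
    constructor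
    · rintro ⟨g, f, ⟨σ, rfl⟩, rfl⟩
      exact ⟨(g, σ), rfl⟩
    · rintro ⟨⟨g, σ⟩, rfl⟩
      exact ⟨g, act σ.1, ⟨σ, rfl⟩, rfl⟩
  rw [h1]
  exact Set.finite_range _

/-- Visible vectors have few nonzero blocks. -/
theorem pow_supp_le' [Finite W] (hact : IsRight act) (hΓ : Rich φ Γ) (enc : X → B → Bool)
    (C : Circuit B D L) (w : Pl k r → ZMod 2)
    (hw : w ∈ visible (isAction_pre (D := D) (L := L) φ hact)
      (wirings enc C (Set.range fun σ : Γ => act σ.1))) :
    (8 ^ r - 1) ^ (supp w).card ≤ numWirings enc C (Set.range fun σ : Γ => act σ.1) := by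
  refine (card_supp_eq (supp w)).trans (le_trans (card_le_card fun w' hw' => ?_)
    (card_visible_le (isAction_pre (D := D) (L := L) φ hact) _ (wirings_finite' Γ enc C)
      (wirings_closed' φ Γ hact hΓ enc C)))
  rw [mem_filter] at hw'
  exact visible_closed' φ Γ hact hΓ enc C w w' hw'.2 hw

theorem exists_shift_local (hact : IsRight act) (enc : X → B → Bool)
    (C : Circuit B D L) {y : Fin k × Fin r → Fin 3 → Fin n} {t q : ℕ}
    (hy : Good t q y) (ht : 1 < t) (ins : (Fin k × Fin r → ZMod 2) → X)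
    (hins : ∀ u b, act (ext φ (tr (push y u))) (ins b) = ins (b + mat y *ᵥ u))
    (hloc : ∀ β b τ, (∀ j, τ j ≠ 0 → ∃ u, (∀ x, enc (act (ext φ (tr (push y u))) x) β = enc x β) ∧
        (mat y *ᵥ u) j ≠ 0) → enc (ins (b + τ)) β = enc (ins b) β)
    (hvis : ∀ w ∈ visible (isAction_pre (D := D) (L := L) φ hact)
      (wirings enc C (Set.range fun σ : Γ => act σ.1)), (supp w).card ≤ q)
    (b b' : Fin k × Fin r → ZMod 2) :
    ∃ u₀ : Fin 3 × Fin n → ZMod 2, ∀ u,
      C.output (enc (act (ext φ (tr (push y (u + u₀)))) (ins b))) =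
      C.output (enc (act (ext φ (tr (push y u))) (ins b'))) := by
  classical
  refine exists_shift_output (isAction_push hact φ y) enc C (mat y) ins hins ht hloc ?_ ?_ b b'
  · intro g x hx1 hx2
    by_contra hcon
    push Not at hcon
    set ξ := view enc C g (act 1) with hξ
    have hid : act 1 = id := act_one hact
    have h1 : ∀ u, push y u ∈ stab (isAction_pre (D := D) (L := L) φ hact) ξ →
        (x ᵥ* mat y) ⬝ᵥ u = 0 := by
      intro u hu
      refine hcon u ?_
      rw [mem_vfixer]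
      rw [mem_stab] at hu
      have h2 : view enc C g (fun x => act (ext φ (tr (push y u))) x) =
          pre (fun x => act (ext φ (tr (push y u))) x) (view enc C g (act 1)) := by
        rw [pre_view, hid]
        rfl
      rw [h2, ← hid]
      exact hu
    obtain ⟨w, hw1, hw2⟩ := exists_pull h1
    have hwv : w ∈ visible (isAction_pre (D := D) (L := L) φ hact)
        (wirings enc C (Set.range fun σ : Γ => act σ.1)) := by
      rw [mem_visible]
      exact ⟨ξ, ⟨g, act 1, ⟨(1 : Γ), rfl⟩, rfl⟩, hw1⟩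
    refine hy.2 x hx1 hx2 w (hvis w hwv) ?_
    rw [pull_add, hw2, vecMul_mat]
    exact add_self' _
  · intro x hx0 hxt h0
    rw [vecMul_mat] at h0
    exact hy.1 x hx0 hxt h0

end Action

/-- The choice of the parameters, for blocks of a given size. -/
theorem exists_params (R : ℕ) : ∃ K : ℕ, 2 ≤ K ∧ ∀ k b : ℕ, K ≤ k → K ≤ b →
    ∃ (r n t q q₁ : ℕ) (_ : (Fin r × Fin 3 → ZMod 2) ↪ Fin b)
      (y : Fin k × Fin r → Fin 3 → Fin n), Good t q y ∧ 1 < t ∧ 2 ≤ q₁ ∧ 3 * n + k < r * q₁ ∧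
      (∀ q', k ≤ R * q' → q₁ ≤ q') ∧
      ∀ T s : ℕ, (8 ^ r - 1) ^ s ≤ T → T ^ K < b ^ k → s ≤ q := by
  classical
  obtain ⟨K, hK⟩ := exists_system R
  refine ⟨K + 2, by omega, fun k b hk hb => ?_⟩
  have hk0 : 0 < k := by omega
  have hcard : Fintype.card (Fin k × Fin b) = k * b := by simp
  obtain ⟨r, n, t, q, q₁, φ, y, hy, ht, hq₁, h4, h5, h6⟩ := hK (Fin k × Fin b) k (by omega) (by
    rw [hcard, mul_comm]
    exact Nat.mul_le_mul_left k (by omega))
  have h7 := Fintype.card_le_of_embedding φ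
  rw [hcard, Fintype.card_prod, Fintype.card_fin] at h7
  have h8 : Fintype.card (Fin r × Fin 3 → ZMod 2) ≤ Fintype.card (Fin b) := by
    rw [Fintype.card_fin]
    exact Nat.le_of_mul_le_mul_left h7 hk0
  obtain ⟨e⟩ := Function.Embedding.nonempty_of_card_le h8
  refine ⟨r, n, t, q, q₁, e, y, hy, ht, hq₁, h4, h5, fun T s hT hlt => h6 T s hT ?_⟩
  have e1 : ((Fintype.card (Fin k × Fin b) : ℝ) / k) = b := by
    rw [hcard, Nat.cast_mul, mul_div_cancel_left₀]
    exact_mod_cast hk0.ne'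
  rw [e1]
  rcases Nat.eq_zero_or_pos T with h0 | h0
  · rcases Nat.eq_zero_or_pos K with hK0 | hK0
    · rw [hK0, pow_zero]
      have : 1 < b ^ k := Nat.one_lt_pow hk0.ne' (by omega)
      exact_mod_cast this
    · rw [h0, Nat.cast_zero, zero_pow (by omega)]
      have : 0 < b ^ k := Nat.pow_pos (by omega)
      exact_mod_cast this
  · have h9 : T ^ K < b ^ k := lt_of_le_of_lt (Nat.pow_le_pow_right h0 (by omega)) hlt
    exact_mod_cast h9

end Pool.Agent.H167R3.AG
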